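import Pool.Agent.Helper517.IDP7
import Pool.Agent.Results.MP_5fef9b_co.SmoothCayleyRUT

/-!
# The integer decomposition property of smooth bundles

Let `P ⊆ ℝ^(m + r)` be a polytope and let `B ⊆ ℝ^m` be its projection. Assume that `B` has the
integer decomposition property. We show that `P` has the integer decomposition property

* if `r = 1` or `r = 2` and `P` is a smooth lattice polytope such that at every vertex exactly the
  last `r` vectors of a suitable lattice basis of edge directions are vertical, i.e. have first `m`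
  coordinates zero; in toric terms: the projective toric variety of `P` is a toric fibre bundle over
  a smooth toric curve or surface, and the fibre is the toric variety of `B`;
* if `r` is arbitrary and `P` is a smooth bundle in the same sense, or more generally a lattice
  polytope whose fibres over `B` depend linearly on the base point, and the fibres are cut out by
  inequalities `A t ≤ c y`, where `A` is a fixed integral matrix all of whose maximal minors are
  `0`, `1` or `-1` and `c` is an integral affine function of the base point `y`. In toric terms,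
  for smooth bundles: the base of the bundle is a smooth projective toric variety whose rays form
  a unimodular system, such as a product of projective spaces or a toric variety with rays
  among the roots of type A.

By iteration we get a large class of polytopes of all dimensions with the integer decomposition
property.
-/

namespace Pool.Agent.Results.MP_a35d42_co.SmoothBundleIDP

/-- `P` is a lattice polytope in `ℝ^d`: the convex hull of a finite nonempty set of points of
`ℤ^d`. -/
def IsLatticePolytope {d : ℕ} (P : Set (Fin d → ℝ)) : Prop :=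
  ∃ S : Set (Fin d → ℝ), S.Finite ∧ S.Nonempty ∧ (∀ v ∈ S, ∀ i, ∃ k : ℤ, v i = (k : ℝ)) ∧
    P = convexHull ℝ S

/-- `P` is a smooth lattice polytope in `ℝ^d`: a lattice polytope such that at every vertex `v`
there is a basis `u 0, …, u (d - 1)` of the lattice `ℤ^d` for which all the points `v + u i` are in
`P` and `P` is contained in the cone `v + ∑ i, ℝ_{≥ 0} u i`; the `u i` are then the primitive
directions of the edges of `P` at `v`. -/
def IsSmoothPolytope {d : ℕ} (P : Set (Fin d → ℝ)) : Prop :=
  IsLatticePolytope P ∧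
    ∀ v ∈ P.extremePoints ℝ, ∃ u : Fin d → (Fin d → ℤ), |Matrix.det (Matrix.of u)| = 1 ∧
      (∀ i, (fun z => v z + (u i z : ℝ)) ∈ P) ∧
      ∀ x ∈ P, ∃ t : Fin d → ℝ, (∀ i, 0 ≤ t i) ∧ ∀ z, x z = v z + ∑ i, t i * (u i z : ℝ)

/-- `P` has the integer decomposition property: for all `k ≥ 1`, every point `z` of `ℤ^d` in the
dilation `k P` is a sum of `k` points of `P ∩ ℤ^d`. -/
def HasIDP {d : ℕ} (P : Set (Fin d → ℝ)) : Prop :=
  ∀ k : ℕ, 1 ≤ k → ∀ z : Fin d → ℤ, (∃ x ∈ P, ∀ i, (z i : ℝ) = k * x i) →
    ∃ f : Fin k → (Fin d → ℤ), (∀ j, (fun i => (f j i : ℝ)) ∈ P) ∧ ∑ j, f j = z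

/-- `P` is a smooth lattice polytope in `ℝ^(m + r)` fibred over its projection to the first `m`
coordinates: at every vertex `v` there is a lattice basis `u` as in the definition of smooth
polytopes, the last `r` vectors of which have their first `m` coordinates equal to zero. -/
def IsSmoothBundle {m r : ℕ} (P : Set (Fin (m + r) → ℝ)) : Prop :=
  IsLatticePolytope P ∧
    ∀ v ∈ P.extremePoints ℝ, ∃ u : Fin (m + r) → (Fin (m + r) → ℤ),
      |Matrix.det (Matrix.of u)| = 1 ∧ (∀ i, (fun z => v z + (u i z : ℝ)) ∈ P) ∧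
      (∀ x ∈ P, ∃ t : Fin (m + r) → ℝ, (∀ i, 0 ≤ t i) ∧
        ∀ z, x z = v z + ∑ i, t i * (u i z : ℝ)) ∧
      ∀ (l : Fin r) (i : Fin m), u (Fin.natAdd m l) (Fin.castAdd r i) = 0

/-- The projection of a subset of `ℝ^(m + r)` to the first `m` coordinates. -/
def proj {m r : ℕ} (P : Set (Fin (m + r) → ℝ)) : Set (Fin m → ℝ) :=
  (fun (x : Fin (m + r) → ℝ) (i : Fin m) => x (Fin.castAdd r i)) '' P

/-- `P` is fibred over its projection to `ℝ^m` in unimodular polytopes: `P` consists of the points
`(y, t)` with `y` in the projection and `A t ≤ c y`, where `A` is an integral matrix with `r`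
columns all of whose `r × r` minors are `0`, `1` or `-1` and `c` is an affine function with integer
coefficients. -/
def IsUnimodularFibred {m r : ℕ} (P : Set (Fin (m + r) → ℝ)) : Prop :=
  ∃ (N : ℕ) (A : Fin N → Fin r → ℤ) (c : Fin N → Fin m → ℤ) (c₀ : Fin N → ℤ),
    (∀ f : Fin r → Fin N, |Matrix.det (Matrix.of fun i => A (f i))| ≤ 1) ∧
    ∀ x : Fin (m + r) → ℝ, x ∈ P ↔ (fun i => x (Fin.castAdd r i)) ∈ proj P ∧
      ∀ i, ∑ l, (A i l : ℝ) * x (Fin.natAdd m l) ≤
        ∑ l, (c i l : ℝ) * x (Fin.castAdd r l) + (c₀ i : ℝ)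

/-- The fibres of `P` over its projection to `ℝ^m` depend linearly on the base point: for all `y`
and `y'` in the projection and `0 ≤ s ≤ 1`, every point of `P` over `s y + (1 - s) y'` is
`s p + (1 - s) q` for some points `p` and `q` of `P` over `y` and `y'`. -/
def IsLinearlyFibred {m r : ℕ} (P : Set (Fin (m + r) → ℝ)) : Prop :=
  ∀ x ∈ P, ∀ y ∈ proj P, ∀ y' ∈ proj P, ∀ s : ℝ, 0 ≤ s → s ≤ 1 →
    (∀ i, x (Fin.castAdd r i) = s * y i + (1 - s) * y' i) →
      ∃ p ∈ P, ∃ q ∈ P, (∀ i, p (Fin.castAdd r i) = y i) ∧ (∀ i, q (Fin.castAdd r i) = y' i) ∧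
        ∀ i, x i = s * p i + (1 - s) * q i

/-- The fibrations we consider: smooth bundles with fibres of dimension one or two, smooth bundles
with unimodular fibres, and lattice polytopes with unimodular fibres depending linearly on the base
point. -/
def IsGoodFibration {m r : ℕ} (P : Set (Fin (m + r) → ℝ)) : Prop :=
  (IsSmoothBundle P ∧ (r = 1 ∨ r = 2 ∨ IsUnimodularFibred P)) ∨
    (IsLatticePolytope P ∧ IsLinearlyFibred P ∧ IsUnimodularFibred P)

/-- An affine map `ℝ^d → ℝ^k` with integral coefficients takes `P` onto the standard unimodular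
simplex `{y | 0 ≤ y i for all i, ∑ i, y i ≤ 1}`. -/
def MapsOntoUnimodularSimplex {d : ℕ} (P : Set (Fin d → ℝ)) (k : ℕ) : Prop :=
  ∃ (M : Fin k → Fin d → ℤ) (b : Fin k → ℤ),
    (fun (x : Fin d → ℝ) (i : Fin k) => ∑ z, (M i z : ℝ) * x z + (b i : ℝ)) '' P =
      {y : Fin k → ℝ | (∀ i, 0 ≤ y i) ∧ ∑ i, y i ≤ 1}

/-- The class of polytopes generated from the point and the smooth polytopes of dimension `k + 2`
with an integral projection onto the unimodular simplex of dimension `k` by unimodular changes of
coordinates and the above fibrations. -/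
inductive Tower : (d : ℕ) → Set (Fin d → ℝ) → Prop
  | point : Tower 0 Set.univ
  | cayley {k : ℕ} {P : Set (Fin (k + 2) → ℝ)} :
      IsSmoothPolytope P → MapsOntoUnimodularSimplex P k → Tower (k + 2) P
  | image {d : ℕ} {P : Set (Fin d → ℝ)} (A : Matrix (Fin d) (Fin d) ℤ) (t : Fin d → ℤ) :
      |A.det| = 1 → Tower d P →
      Tower d ((fun (x : Fin d → ℝ) (i : Fin d) => ∑ z, (A i z : ℝ) * x z + (t i : ℝ)) '' P)
  | fibration {m r : ℕ} {P : Set (Fin (m + r) → ℝ)} :
      IsGoodFibration P → Tower m (proj P) → Tower (m + r) P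

open Pool.Agent.Helper517.Conv Pool.Agent.Helper517.Smooth Pool.Agent.Helper517.Frame
open Pool.Agent.Helper517.Sect Pool.Agent.Helper517 Pool.Agent.Helper517.IDPB

lemma hasIDP_iff {d : ℕ} (P : Set (Fin d → ℝ)) : HasIDP P ↔ IDP P := by
  constructor
  · rintro h k hk z ⟨x, hx, hzx⟩
    exact h k hk z ⟨x, hx, fun i => congrFun hzx i⟩
  · rintro h k hk z ⟨x, hx, hzx⟩
    exact h k hk z ⟨x, hx, funext hzx⟩

lemma lattice_iff {d : ℕ} {P : Set (Fin d → ℝ)} (hP : IsLatticePolytope P) :
    ∃ S : Set (Fin d → ℤ), S.Finite ∧ P.Nonempty ∧ P = convexHull ℝ (toR '' S) := by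
  obtain ⟨S, hSfin, hSne, hSint, hPS⟩ := hP
  have hS : toR '' {x : Fin d → ℤ | toR x ∈ S} = S := by
    ext x
    constructor
    · rintro ⟨y, hy, rfl⟩
      exact hy
    · intro hx
      choose y hy using hSint x hx
      have e : toR y = x := funext (fun i => (hy i).symm)
      exact ⟨y, by show toR y ∈ S; rw [e]; exact hx, e⟩
  refine ⟨{x : Fin d → ℤ | toR x ∈ S}, hSfin.preimage toR_injective.injOn, ?_, ?_⟩
  · rw [hPS]; exact hSne.convexHull
  · rw [hS]; exact hPS

lemma exists_VD {m r : ℕ} {P : Set (Fin (m + r) → ℝ)} (hP : IsSmoothBundle P) :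
    ∀ v, toR v ∈ P.extremePoints ℝ → ∃ u D, VD P v u D := by
  intro v hv
  obtain ⟨u, h1, h2, h3, h4⟩ := hP.2 _ hv
  obtain ⟨D, hD⟩ := exists_dualBasis u h1
  refine ⟨u, D, hD, hv.1, ?_, ?_, h4⟩
  · intro i
    rw [toR_add]
    exact h2 i
  · intro x hx i
    obtain ⟨t, ht, hxt⟩ := h3 x hx
    have e : x - toR v = ∑ l, t l • toR (u l) := by
      funext z
      rw [Finset.sum_apply]
      simp only [Pi.sub_apply, Pi.smul_apply, smul_eq_mul, toR]
      rw [hxt z]
      simp [toR]
    rw [e, linR_sum]
    simp only [linR_smul, linR_toR, hD.dual]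
    have e2 : ∑ l, t l * (((if i = l then 1 else 0 : ℤ)) : ℝ) = t i := by
      rw [Finset.sum_eq_single i]
      · simp
      · intro l _ hl
        rw [if_neg (Ne.symm hl)]; simp
      · intro hc; exact absurd (Finset.mem_univ _) hc
    rw [e2]
    exact ht i

/-- The step for unimodular fibres. -/
theorem unimodular_step {m r : ℕ} {P : Set (Fin (m + r) → ℝ)} (hP : IsLatticePolytope P)
    (hl : Lin P) (hA : IsUnimodularFibred P) (hB : HasIDP (proj P)) : HasIDP P := by
  obtain ⟨S, hS, _, hPS⟩ := lattice_iff hP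
  obtain ⟨N, A, c, c₀, h1, h2⟩ := hA
  rw [hasIDP_iff] at hB ⊢
  exact unimod_idp (by rw [hPS]; exact (hS.image _).isCompact_convexHull (𝕜 := ℝ))
    (by rw [hPS]; exact convex_convexHull ℝ _) hl A h1 c c₀ h2 hB

/-- The fibration step. -/
theorem step {m r : ℕ} {P : Set (Fin (m + r) → ℝ)} (hP : IsGoodFibration P)
    (hB : HasIDP (proj P)) : HasIDP P := by
  rcases hP with ⟨hP, hr⟩ | ⟨hP, hl, hA⟩
  · obtain ⟨S, hS, hne, hPS⟩ := lattice_iff hP.1
    have hVD := exists_VD hP
    rcases hr with rfl | rfl | hA
    · rw [hasIDP_iff] at hB ⊢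
      exact seg_idp hS hPS hne hVD hB
    · rw [hasIDP_iff] at hB ⊢
      exact bundle_idp hS hPS hne hVD hB
    · exact unimodular_step hP.1 (lin_of_bundle hS hPS hne hVD) hA hB
  · refine unimodular_step hP ?_ hA hB
    intro x hx y hy y' hy' s hs0 hs1 hxy
    obtain ⟨p, hp, q, hq, h1, h2, h3⟩ := hl x hx y hy y' hy' s hs0 hs1 (fun i => congrFun hxy i)
    exact ⟨p, hp, q, hq, funext h1, funext h2, funext h3⟩

/-- Cayley polytopes of polygons. -/
theorem cayley {k : ℕ} {P : Set (Fin (k + 2) → ℝ)} (hP : IsSmoothPolytope P)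
    (hC : MapsOntoUnimodularSimplex P k) : HasIDP P := by
  obtain ⟨K, h, ⟨h1, h2⟩, h3⟩ := MP_5fef9b_co.SmoothCayleyRUT.result k P hP hC
  obtain ⟨S, hS, _, hPS⟩ := lattice_iff hP.1
  rw [hasIDP_iff]
  exact rut_idp (K := K) (h := h) (by rw [hPS]; exact finite_lattice hS) ⟨h1, h2, h3⟩

/-- All towers have the integer decomposition property. -/
theorem tower {d : ℕ} {P : Set (Fin d → ℝ)} (h : Tower d P) : HasIDP P := by
  induction h with
  | point => exact (hasIDP_iff _).2 point_idp
  | cayley h1 h2 => exact cayley h1 h2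
  | @image d P A t hA hT ih =>
    rw [hasIDP_iff] at ih ⊢
    exact image_idp ih A hA t
  | fibration hP hT ih => exact step hP ih

/-- **Main theorem.** Let `P` be fibred, in one of the ways considered above, over a polytope with
the integer decomposition property. Then `P` has the integer decomposition property. Consequently
all the polytopes obtained from the point and the smooth Cayley polytopes of polygons by iterated
fibrations of these kinds and unimodular changes of coordinates have the integer decomposition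
property. -/
theorem result :
    (∀ (m r : ℕ) (P : Set (Fin (m + r) → ℝ)), IsGoodFibration P → HasIDP (proj P) → HasIDP P) ∧
    ∀ (d : ℕ) (P : Set (Fin d → ℝ)), Tower d P → HasIDP P :=
  ⟨fun _ _ _ hP hB => step hP hB, fun _ _ h => tower h⟩

end Pool.Agent.Results.MP_a35d42_co.SmoothBundleIDP
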